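import Mathlib
import Pool.Agent.H5.Cvx

set_option autoImplicit false

namespace Pool.Agent.Results.MP_856808_pr.Tight

open Finset MeasureTheory ProbabilityTheory Pool.Agent.H5.Cvx
open scoped NNReal ENNReal

/-- equispaced design points `x_i = i / (n - 1)`, `i = 0, …, n - 1` -/
noncomputable def x (n : ℕ) (i : Fin n) : ℝ := ((i : ℕ) : ℝ) / ((n : ℝ) - 1)

/-- slope between the consecutive design points `i` and `i + 1` -/
noncomputable def slope {n : ℕ} (θ : Fin n → ℝ) (i : ℕ) (hi : i + 1 < n) : ℝ :=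
  (θ ⟨i + 1, hi⟩ - θ ⟨i, by omega⟩) / (x n ⟨i + 1, hi⟩ - x n ⟨i, by omega⟩)

/-- the cone `K_n`: slopes nondecreasing in `i` -/
def K (n : ℕ) : Set (Fin n → ℝ) :=
  {θ | ∀ (i j : ℕ) (hj : j + 1 < n) (hij : i ≤ j), slope θ i (by omega) ≤ slope θ j hj}

/-- `θ` is a least squares projection of `Y` on `K_n` -/
def IsLSE {n : ℕ} (Y θ : Fin n → ℝ) : Prop :=
  θ ∈ K n ∧ ∀ θ' ∈ K n, ∑ i, (Y i - θ i) ^ 2 ≤ ∑ i, (Y i - θ' i) ^ 2

/-- law of the noise vector: i.i.d. `N(0, σ²)` -/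
noncomputable def noise (n : ℕ) (σ : ℝ) : Measure (Fin n → ℝ) :=
  Measure.pi fun _ => gaussianReal 0 (Real.toNNReal (σ ^ 2))

def ext {n : ℕ} (θ : Fin n → ℝ) : ℕ → ℝ := fun i => if h : i < n then θ ⟨i, h⟩ else 0

theorem slope_eq {n : ℕ} (hn : 3 ≤ n) (θ : Fin n → ℝ) (i : ℕ) (hi : i + 1 < n) :
    slope θ i hi = (ext θ (i + 1) - ext θ i) * ((n : ℝ) - 1) := by
  have h3 : (3 : ℝ) ≤ n := by exact_mod_cast hn
  have h1 : (n : ℝ) - 1 ≠ 0 := by linarith
  unfold slope x ext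
  rw [dif_pos hi, dif_pos (show i < n by omega)]
  push_cast
  field_simp
  ring

theorem mem_K {n : ℕ} (hn : 3 ≤ n) (θ : Fin n → ℝ) : θ ∈ K n ↔ Cv n (ext θ) := by
  have h3 : (3 : ℝ) ≤ n := by exact_mod_cast hn
  have h1 : 0 < (n : ℝ) - 1 := by linarith
  constructor
  · intro h i hi
    have := h i (i + 1) (by omega) (by omega)
    rw [slope_eq hn, slope_eq hn] at this
    exact le_of_mul_le_mul_right this h1
  · intro h i j hj hij
    rw [slope_eq hn, slope_eq hn]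
    exact mul_le_mul_of_nonneg_right (slope_mono h i j hij hj) h1.le

theorem sum_ext {n : ℕ} (Y θ : Fin n → ℝ) (g : ℝ → ℝ → ℝ) :
    ∑ i, g (Y i) (θ i) = ∑ i ∈ range n, g (ext Y i) (ext θ i) := by
  rw [← Fin.sum_univ_eq_sum_range (fun i => g (ext Y i) (ext θ i))]
  refine sum_congr rfl fun i _ => ?_
  simp [ext]

theorem sum_ext_lt {n : ℕ} (Y : Fin n → ℝ) (j : ℕ) (hj : j ≤ n) :
    ∑ i ∈ range j, ext Y i = ∑ i ∈ univ.filter (fun i : Fin n => (i : ℕ) < j), Y i := by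
  have h1 : ∑ i ∈ univ.filter (fun i : Fin n => (i : ℕ) < j), Y i
      = ∑ i : Fin n, (fun k : ℕ => if k < j then ext Y k else 0) i := by
    rw [sum_filter]
    refine sum_congr rfl fun i _ => ?_
    simp [ext]
  rw [h1, Fin.sum_univ_eq_sum_range (fun k : ℕ => if k < j then ext Y k else 0), ← sum_filter]
  congr 1
  ext k
  simp only [mem_range, mem_filter]
  omega

theorem det' {n : ℕ} (hn : 3 ≤ n) {Y θ : Fin n → ℝ} (h : IsLSE Y θ) (U Q : ℝ) (hU0 : 0 ≤ U)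
    (hQ0 : 0 ≤ Q)
    (hU : ∀ j ≤ n, ∑ i ∈ univ.filter (fun i : Fin n => (i : ℕ) < j), Y i ≤ j * U)
    (hQ : ∑ i, Y i ^ 2 ≤ n * Q) :
    Y ⟨0, by omega⟩ ≤ θ ⟨0, by omega⟩ ∧ θ ⟨0, by omega⟩ ≤ 2 * U + 12 * (1 + 4 * Q) := by
  have h1 := det hn (Y := ext Y) (θ := ext θ) ((mem_K hn θ).1 h.1) (by
    intro θ' hθ'
    have h2 : ∀ i, i < n → ext (fun i : Fin n => θ' i) i = θ' i := fun i hi => by simp [ext, hi]
    have h3 := h.2 (fun i => θ' i) ((mem_K hn _).2 (by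
      intro i hi
      rw [h2 _ hi, h2 _ (by omega), h2 _ (by omega)]
      exact hθ' i hi))
    rw [sum_ext Y θ (fun a b => (a - b) ^ 2), sum_ext Y _ (fun a b => (a - b) ^ 2)] at h3
    refine h3.trans (le_of_eq (sum_congr rfl fun i hi => ?_))
    rw [h2 i (mem_range.1 hi)]) U Q hU0 hQ0 (by
    intro j hj
    rw [sum_ext_lt Y j hj]
    exact hU j hj) (by
    rw [← sum_ext Y Y (fun a _ => a ^ 2)]
    exact hQ)
  have h0 : 0 < n := by omega
  simpa [ext, h0] using h1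

theorem geo (q : ℝ) (hq0 : 0 ≤ q) (hq : q ≤ 1 / 2) (n : ℕ) :
    ∑ j ∈ range n, q ^ (j + 1) ≤ 2 * q := by
  have : ∀ n : ℕ, ∑ j ∈ range n, q ^ (j + 1) ≤ 2 * q - 2 * q ^ (n + 1) := by
    intro n
    induction n with
    | zero => simp
    | succ n ih =>
      rw [sum_range_succ, pow_succ q (n + 1)]
      have := pow_nonneg hq0 (n + 1)
      nlinarith
  have h1 := this n
  have := pow_nonneg hq0 (n + 1)
  linarith

theorem result (f : ℝ → ℝ) (hf : ContinuousOn f (Set.Icc 0 1)) (_hc : ConvexOn ℝ (Set.Icc 0 1) f)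
    (σ : ℝ) (hσ : 0 < σ) (η : ℝ) (hη : 0 < η) :
    ∃ M : ℝ, (⨆ (n : ℕ) (hn : 3 ≤ n), noise n σ
      {ε | ∃ θ : Fin n → ℝ, IsLSE (fun i => f (x n i) + ε i) θ ∧ M < |θ ⟨0, by omega⟩|})
      < ENNReal.ofReal η := by
  obtain ⟨B, hB⟩ := isCompact_Icc.exists_bound_of_continuousOn hf
  have hB0 : 0 ≤ B := (norm_nonneg _).trans (hB 0 ⟨le_rfl, zero_le_one⟩)
  set v : ℝ≥0 := Real.toNNReal (σ ^ 2) with hv
  have hv0 : 0 < v := Real.toNNReal_pos.2 (by positivity)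
  have hv1 : (0 : ℝ) < v := hv0
  set M : ℝ := 1 + 4 * v + 14 * v / η with hM
  have hM3 : 0 ≤ 14 * (v : ℝ) / η := by positivity
  have hM1 : 1 ≤ M := by linarith
  have hM0 : 0 < M := by linarith
  set q := Real.exp (-M ^ 2 / (2 * v)) with hq
  have hq0 : 0 ≤ q := (Real.exp_pos _).le
  have hq1 : q ≤ 2 * v / M := by
    have h1 : M / (2 * v) ≤ Real.exp (M ^ 2 / (2 * v)) := by
      have h2 := Real.add_one_le_exp (M ^ 2 / (2 * v))
      have h3 : M / (2 * v) ≤ M ^ 2 / (2 * v) := by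
        gcongr
        nlinarith
      linarith
    rw [hq, neg_div, Real.exp_neg, ← inv_div M]
    exact inv_anti₀ (by positivity) h1
  have hq2 : q ≤ 1 / 2 := by
    refine hq1.trans ?_
    rw [div_le_iff₀ hM0]
    linarith
  have hq3 : 7 * (v : ℝ) / M ≤ η / 2 := by
    rw [div_le_iff₀ hM0]
    have : 14 * (v : ℝ) / η * η = 14 * v := by field_simp
    nlinarith
  refine ⟨2 * (B + M) + 12 * (1 + 4 * (2 * B ^ 2 + 2 * M)), ?_⟩
  refine lt_of_le_of_lt (b := ENNReal.ofReal (η / 2)) ?_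
    ((ENNReal.ofReal_lt_ofReal_iff hη).2 (by linarith))
  refine iSup₂_le fun n hn => ?_
  have h0 : 0 < n := by omega
  set μ : Measure (Fin n → ℝ) := Measure.pi fun _ => gaussianReal 0 v with hμ
  change μ _ ≤ _
  rw [← ofReal_measureReal (measure_ne_top _ _)]
  refine ENNReal.ofReal_le_ofReal ?_
  have hx : ∀ i, |f (x n i)| ≤ B := by
    intro i
    have h3 : (3 : ℝ) ≤ n := by exact_mod_cast hn
    have h4 : ((i : ℕ) : ℝ) + 1 ≤ n := by exact_mod_cast i.2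
    refine hB _ ⟨div_nonneg (Nat.cast_nonneg _) (by linarith), ?_⟩
    unfold x
    rw [div_le_one (by linarith)]
    linarith
  set A1 : Set (Fin n → ℝ) := {ω | M ≤ -ω ⟨0, h0⟩}
  set A2 : Set (Fin n → ℝ) := {ω | n * M ≤ ∑ i, ω i ^ 2}
  set A3 : ℕ → Set (Fin n → ℝ) := fun j =>
    {ω | ((j + 1 : ℕ) : ℝ) * M ≤ ∑ i ∈ univ.filter (fun i : Fin n => (i : ℕ) < j + 1), ω i}
  have p1 : μ.real A1 ≤ q := (coord_subg n v ⟨0, h0⟩).neg.measure_ge_le hM0.le
  have p2 : μ.real A2 ≤ v / M := sq_markov n h0 v M hM0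
  have p3 : μ.real (⋃ j ∈ range n, A3 j) ≤ 2 * q := by
    refine (measureReal_biUnion_finset_le _ _).trans (le_trans ?_ (geo q hq0 hq2 n))
    exact sum_le_sum fun j hj => psum_tail n v hv0 M hM0.le j (mem_range.1 hj)
  refine le_trans (measureReal_mono (s₂ := (A1 ∪ A2) ∪ ⋃ j ∈ range n, A3 j) ?_) ?_
  · rintro ε ⟨θ, hθ, hbig⟩
    by_contra hcon
    simp only [Set.mem_union, Set.mem_iUnion, not_or, not_exists, A1, A2, A3,
      Set.mem_ofPred_eq, not_le] at hcon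
    obtain ⟨⟨c1, c2⟩, c3⟩ := hcon
    have h5 := det' hn hθ (B + M) (2 * B ^ 2 + 2 * M) (by positivity) (by positivity) (by
      intro j hj
      rcases j with _ | j
      · simp
      · have h6 := c3 j (mem_range.2 (by omega))
        rw [sum_add_distrib]
        have h7 : ∑ i ∈ univ.filter (fun i : Fin n => (i : ℕ) < j + 1), f (x n i)
            ≤ ∑ _i ∈ univ.filter (fun i : Fin n => (i : ℕ) < j + 1), B :=
          sum_le_sum fun i _ => (le_abs_self _).trans (hx i)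
        rw [sum_const, Fin.card_filter_val_lt, min_eq_right hj, nsmul_eq_mul] at h7
        linarith) (by
      have h7 : ∑ i, (f (x n i) + ε i) ^ 2 ≤ ∑ i, (2 * B ^ 2 + 2 * ε i ^ 2) :=
        sum_le_sum fun i _ => by
          have := sq_le_sq' (abs_le.1 (hx i)).1 (abs_le.1 (hx i)).2
          nlinarith [sq_nonneg (f (x n i) - ε i)]
      rw [sum_add_distrib, ← mul_sum, ← mul_sum, sum_const, card_univ, Fintype.card_fin,
        nsmul_eq_mul] at h7
      linarith)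
    have h8 := abs_le.1 (hx ⟨0, h0⟩)
    have h9 : 0 ≤ B ^ 2 := sq_nonneg B
    refine absurd hbig (not_lt.2 (abs_le.2 ⟨?_, h5.2⟩))
    have := h5.1
    linarith [h8.1]
  · have := measureReal_union_le (μ := μ) (A1 ∪ A2) (⋃ j ∈ range n, A3 j)
    have := measureReal_union_le (μ := μ) A1 A2
    have h4 : 7 * (v : ℝ) / M = v / M + 3 * (2 * v / M) := by ring
    linarith

end Pool.Agent.Results.MP_856808_pr.Tight
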